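import Mathlib
import Pool.Agent.N394.PX.Idx

/-! Unramified period-index for curves times abelian varieties and for abelian fibrations: the index is bounded in
terms of the intersection numbers of divisors.

Let `A` be an abelian variety of dimension `g` over an algebraically closed field `k` and `n` prime to the
characteristic. The group `H^1(A, μ_n)` has a basis given by functions `z_1, ..., z_(2g)` on `A` whose divisors are
divisible by `n`, the classes in `Br(A)` killed by `n` are sums of symbols `(z_u, z_v)`, and those killed by `n` in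
`Br(C × A)`, `C` a curve, are sums of symbols with entries in the group generated by `k(C)ˣ` and the `z_u`. A divisor
class `D` on `A` gives an alternating form and hence a relation `∑ w(u, v) (z_u, z_v) = 0` in `Br(k(A))`. The
intersection number `D_1 ⋯ D_g` is the coefficient of `X_1 ⋯ X_g` in the Pfaffian of `X_1 A_1 + ... + X_g A_g`,
`A_i = w_i - w_i^T`. The theorem shows that the index of all classes in `Br(C × A)` of period dividing `n` divides
`n^g ∏_(p ∣ n) p^(v_p(N))`, `N` the greatest common divisor of all intersection numbers; so it divides `n^g`, as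
predicted by the conjecture (`dim (C × A) = g + 1`), if there are divisors with `D_1 ⋯ D_g` prime to `n`.

The same holds for abelian fibrations over a base of dimension `e` and fields `L` in place of `k(C)`, with the bound
for the index over fields of transcendence degree `e` as a further factor. With `w_1 = ... = w_g` a principal
polarisation we have `N = g!` (the starting result FactorialBound); for products of principally polarised abelian
varieties of dimensions `g_1, ..., g_s` we get `N = g_1! ⋯ g_s!`; no polarisation has to be principal.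

Proof. A class is given by an alternating form `b` on `ℤ^(2g)`, modulo symbols with an entry in `L`, and we may add
combinations of the `A_i`. The Pfaffian of `b + ∑ c_i A_i` is a polynomial of degree `g` in `c`, and its `g`-th
difference in the directions `1, ..., g` is the intersection number. Therefore for all `p` there is `c` such that the
Pfaffian is not divisible by a larger power of `p` than the intersection number, and the Frobenius normal form and the
method of FactorialBound (adjoining roots one after the other) give the bound. -/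

set_option autoImplicit false
set_option linter.all false

open scoped TensorProduct

namespace Pool.Agent.Results.MP_43d240_ag.IntersectionNumbers

open Pool.Agent.Helper18.Br Pool.Agent.H552R3.SymBr Pool.Agent.H552R3.SymPred Pool.Agent.H552R3.Tsen
  Pool.Agent.Y109.PI Pool.Agent.N394.PX

universe u

/-- Let `K` be an extension of an algebraically closed field `k`, let `ζ ∈ k` be a primitive `n`-th root of
unity, `L` an intermediate field, and let `z_1, ..., z_(2g)` be nonzero elements of `K`. Let `w_i` (`i` in a finite
set) be integral matrices of size `2 g` such that the combinations `∑ w_i(u, v) (z_u, z_v)` of symbols of degree `n`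
are combinations of symbols `(a, b)` of degree `n` with `a ∈ L` and `b ∈ L ∪ {z_1, ..., z_(2g)}` (for instance such
that they vanish). For indices `e_1, ..., e_g` let the intersection number be the coefficient of `X_1 ⋯ X_g` in the
Pfaffian of `∑ X_i (w_(e_i) - w_(e_i)^T)`, and let `N` be a positive integral combination of intersection numbers, for
instance their greatest common divisor. Let `α` be a class in the subgroup of `Br(K)` generated by all symbols of degree
`n` with entries in the group generated by `Lˣ` and the `z_u`. Put `M = n ^ g * ∏_{p ∣ n} p ^ v_p(N)`. Then: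
(1) if `L` has transcendence degree at most one over `k`, then the index of `α` divides `M`; in particular it
divides `n ^ g` if `n` is prime to `N`;
(2) if `L` has transcendence degree at most `e` over `k` and if, over every extension of `k` of transcendence
degree at most `e`, the index of all classes generated by symbols of degree `n` divides `m`, then the index
of `α` divides `m * M`;
(3) if `n` is prime to `N`, then `α` is the sum of `g` symbols of degree `n` and of a
class `β` generated by symbols of degree `n` with entries in `L`, where `β = 0` if `L` has transcendence degree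
at most one over `k`; and if the index of every class generated by symbols of degree `n` with entries in `L`
divides `m`, then the index of `α` divides `m * n ^ g`. -/
theorem result {k K : Type u} [Field k] [IsAlgClosed k] [Field K] [Algebra k K] (n : ℕ) (hn : 0 < n)
    (ζ : k) (hζ : IsPrimitiveRoot ζ n) (L : IntermediateField k K) (g : ℕ) (z : Fin (2 * g) → Kˣ)
    (θ : Fin (2 * g) → Fin (2 * g) → BrauerGroup.{u, u} K)
    (hθ : ∀ u v, IsSym n (algebraMap k K ζ) (z u) (z v) (θ u v))
    {κ : Type} [Fintype κ] (w : κ → Fin (2 * g) → Fin (2 * g) → ℤ)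
    (hrel : ∀ i, ∏ u, ∏ v, θ u v ^ w i u v ∈ Subgroup.closure {γ | ∃ a b : Kˣ, (a : K) ∈ L ∧
      ((b : K) ∈ L ∨ b ∈ Set.range z) ∧ IsSym n (algebraMap k K ζ) a b γ})
    (N : ℕ) (hN0 : 0 < N)
    (hN : (N : ℤ) ∈ Ideal.span (Set.range fun e : Fin g → κ =>
      inter g fun i => Matrix.of fun u v => w (e i) u v - w (e i) v u))
    (G : Subgroup Kˣ) (hG : G = Subgroup.closure ({a : Kˣ | (a : K) ∈ L} ∪ Set.range z))
    (V : Subgroup (BrauerGroup.{u, u} K))
    (hV : V = Subgroup.closure {γ | ∃ a b : Kˣ, (a : K) ∈ L ∧ (b : K) ∈ L ∧ IsSym n (algebraMap k K ζ) a b γ})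
    (α : BrauerGroup.{u, u} K)
    (hα : α ∈ Subgroup.closure {γ | ∃ a ∈ G, ∃ b ∈ G, IsSym n (algebraMap k K ζ) a b γ}) :
    (Algebra.trdeg k L ≤ 1 →
      IndDvd α (n ^ g * ∏ p ∈ n.primeFactors, p ^ N.factorization p) ∧
      (n.Coprime N → IndDvd α (n ^ g))) ∧
    (∀ e m : ℕ, 0 < m → Algebra.trdeg k L ≤ e →
      (∀ (M : Type u) [Field M] [Algebra k M], Algebra.trdeg k M ≤ e →
        ∀ β ∈ Subgroup.closure {γ : BrauerGroup.{u, u} M | ∃ a b : Mˣ, IsSym n (algebraMap k M ζ) a b γ},
        IndDvd β m) →
      IndDvd α (m * (n ^ g * ∏ p ∈ n.primeFactors, p ^ N.factorization p))) ∧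
    (n.Coprime N →
      (∃ (s t : Fin g → Kˣ) (σ : Fin g → BrauerGroup.{u, u} K) (β : BrauerGroup.{u, u} K),
        (∀ i, IsSym n (algebraMap k K ζ) (s i) (t i) (σ i)) ∧ β ∈ V ∧ (Algebra.trdeg k L ≤ 1 → β = 1) ∧
        α = (∏ i, σ i) * β) ∧
      ∀ m : ℕ, 0 < m → (∀ β ∈ V, IndDvd β m) → IndDvd α (m * n ^ g)) := by
  classical
  have hK := rootK K hζ
  -- the subgroup `H = Lˣ`
  let H : Subgroup Kˣ :=
    { carrier := {x : Kˣ | (x : K) ∈ L}
      mul_mem' := fun {a b} ha hb => by
        change ((a * b : Kˣ) : K) ∈ L
        rw [Units.val_mul]; exact L.mul_mem ha hb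
      one_mem' := L.one_mem
      inv_mem' := fun {a} ha => by
        change ((a⁻¹ : Kˣ) : K) ∈ L
        rw [Units.val_inv_eq_inv_val]; exact L.inv_mem ha }
  have hneg : (-1 : Kˣ) ∈ H := by
    change ((-1 : Kˣ) : K) ∈ L
    rw [Units.val_neg, Units.val_one]
    exact L.neg_mem L.one_mem
  have hVH : ∀ a ∈ H, ∀ b ∈ H, symCl hn hK a b ∈ V := fun a ha b hb => by
    rw [hV]
    exact Subgroup.subset_closure ⟨a, b, ha, hb, (isSym_iff hn hK a b _).2 rfl⟩
  have hVVL : V = VL hn hζ K L := by
    rw [hV, VL]
    congr 1
    ext γ
    simp only [Set.mem_setOf_eq, isSym_iff hn hK]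
  have hGH : G = H ⊔ Subgroup.closure (Set.range z) := by
    rw [hG, Subgroup.closure_union]
    congr 1
    exact Subgroup.closure_eq H
  have hα' : α ∈ Subgroup.closure {γ | ∃ a ∈ H ⊔ Subgroup.closure (Set.range z),
      ∃ b ∈ H ⊔ Subgroup.closure (Set.range z), γ = symHom hn hK a b} := by
    have : {γ | ∃ a ∈ G, ∃ b ∈ G, IsSym n (algebraMap k K ζ) a b γ} =
        {γ | ∃ a ∈ H ⊔ Subgroup.closure (Set.range z),
      ∃ b ∈ H ⊔ Subgroup.closure (Set.range z), γ = symHom hn hK a b} := by
      ext γ
      simp only [Set.mem_setOf_eq, isSym_iff hn hK, hGH, symHom_apply]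
    rw [← this]; exact hα
  have hrel' : ∀ i, Q (symHom hn hK) z (w i) ∈ low (symHom hn hK) H V z := by
    intro i
    have h1 : Q (symHom hn hK) z (w i) = ∏ u, ∏ v, θ u v ^ w i u v := by
      rw [Q, Fintype.prod_prod_type]
      refine Finset.prod_congr rfl fun u _ => Finset.prod_congr rfl fun v _ => ?_
      rw [(isSym_iff hn hK (z u) (z v) (θ u v)).1 (hθ u v), symHom_apply]
    rw [h1]
    refine (Subgroup.closure_le (low (symHom hn hK) H V z)).2 ?_ (hrel i)
    rintro γ ⟨a, b, ha, hb, hab⟩
    rw [isSym_iff hn hK] at hab
    subst hab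
    rcases hb with hb | ⟨i, rfl⟩
    · exact low_V (symHom hn hK) (hVH a ha b hb)
    · exact low_sym (symHom hn hK) (V := V) (z := z) (H := H) ha i
  -- the intersection numbers
  have hint : ∀ p : ℕ, p.Prime → ∃ e : Fin g → κ,
      ¬ (p : ℤ) ^ (N.factorization p + 1) ∣ inter g (fun i => dif (w (e i))) := by
    intro p hp
    by_contra hcon
    push Not at hcon
    have h1 : (N : ℤ) ∈ Ideal.span {(p : ℤ) ^ (N.factorization p + 1)} := by
      refine (Ideal.span_le.2 ?_) hN
      rintro _ ⟨e, rfl⟩
      exact Ideal.mem_span_singleton.2 (hcon e)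
    have h2 := Ideal.mem_span_singleton.1 h1
    have h3 : p ^ (N.factorization p + 1) ∣ N := by exact_mod_cast h2
    have h4 := (hp.pow_dvd_iff_le_factorization hN0.ne').1 h3
    omega
  -- Tsen
  have hbase1 : Base hn hζ 1 1 := by
    intro M _ _ hM β hβ
    have hle : Subgroup.closure {γ : BrauerGroup.{u, u} M | ∃ a b : Mˣ, γ = symCl hn (rootK M hζ) a b} ≤ ⊥ := by
      rw [Subgroup.closure_le]
      rintro γ ⟨a, b, rfl⟩
      have hdep : ¬ AlgebraicIndependent k ![(a : M), (b : M)] := by
        intro h
        have h2 := h.lift_cardinalMk_le_trdeg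
        have h3 := h2.trans (Cardinal.lift_le.2 hM)
        simp at h3
      rw [SetLike.mem_coe, Subgroup.mem_bot]
      exact tsen hn hζ a b hdep
    have h6 := hle hβ
    rw [Subgroup.mem_bot] at h6
    subst h6
    exact hasRep_one.indDvd
  have hVbot : Algebra.trdeg k L ≤ 1 → V ≤ ⊥ := by
    intro hL
    rw [hV, Subgroup.closure_le]
    rintro γ ⟨a, b, ha, hb, hab⟩
    have hdep : ¬ AlgebraicIndependent k ![(a : K), (b : K)] := by
      intro h
      have h1 : AlgebraicIndependent k ![(⟨a, ha⟩ : L), (⟨b, hb⟩ : L)] := by
        apply AlgebraicIndependent.of_comp L.val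
        convert h using 1
        funext i
        fin_cases i <;> rfl
      have h2 := h1.lift_cardinalMk_le_trdeg
      have h3 := h2.trans (Cardinal.lift_le.2 hL)
      simp at h3
    have h4 := (isSym_iff hn hK a b γ).1 hab
    rw [SetLike.mem_coe, Subgroup.mem_bot, h4]
    exact tsen hn hζ a b hdep
  -- the general bound
  have main : ∀ e m : ℕ, 0 < m → Algebra.trdeg k L ≤ e → Base hn hζ e m →
      IndDvd α (m * (n ^ g * corr' n N)) := by
    intro e m hm hL hbase
    exact index_multi hn hζ hm hbase L hL H (fun a => Iff.rfl) g z w (fun i => by rw [← hVVL]; exact hrel' i) N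
      (fun p hp _ => hint p hp) α hα'
  refine ⟨fun hL => ?_, fun e m hm hL hb => ?_, fun hc => ?_⟩
  · have h1 := main 1 1 one_pos (by exact_mod_cast hL) hbase1
    rw [one_mul] at h1
    refine ⟨h1, fun hc => ?_⟩
    have hc1 : corr' n N = 1 := by
      rw [corr']
      refine Finset.prod_eq_one fun p hp => ?_
      have hpp := Nat.prime_of_mem_primeFactors hp
      have h2 : N.factorization p = 0 := by
        refine Nat.factorization_eq_zero_of_not_dvd fun h => ?_
        have h3 := Nat.dvd_gcd (Nat.dvd_of_mem_primeFactors hp) h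
        rw [hc] at h3
        exact hpp.one_lt.ne' (Nat.dvd_one.1 h3)
      rw [h2, pow_zero]
    rwa [hc1, mul_one] at h1
  · refine main e m hm hL fun M _ _ hM β hβ => hb M hM β ?_
    have : {γ : BrauerGroup.{u, u} M | ∃ a b : Mˣ, γ = symCl hn (rootK M hζ) a b} =
        {γ : BrauerGroup.{u, u} M | ∃ a b : Mˣ, IsSym n (algebraMap k M ζ) a b γ} := by
      ext γ
      simp only [Set.mem_setOf_eq, isSym_iff hn (rootK M hζ)]
    rw [← this]; exact hβ
  · have hND : ∀ b : Matrix (Fin (2 * g)) (Fin (2 * g)) ℤ, Alt b →
        ∃ w0 : Fin (2 * g) → Fin (2 * g) → ℤ, Q (symHom hn hK) z w0 ∈ low (symHom hn hK) H V z ∧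
        IsCoprime (b + Matrix.of fun u v => w0 u v - w0 v u).det (n : ℤ) := by
      intro b hb
      obtain ⟨c, P, hP, hPp⟩ := exists_good' g n hn (fun p => N.factorization p) b (fun i => dif (w i)) hb
        (fun i => alt_dif (w i)) (fun p hp _ => hint p hp)
      refine ⟨∑ i, c i • w i, ?_, ?_⟩
      · rw [Q_comb']
        exact Subgroup.prod_mem _ fun i _ => Subgroup.zpow_mem _ (hrel' i) _
      · rw [dif_comb', hP]
        apply IsCoprime.pow_left
        rw [Int.isCoprime_iff_gcd_eq_one]
        by_contra hne
        obtain ⟨p, hp, hpd⟩ := Nat.exists_prime_and_dvd hne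
        have h1 : (p : ℤ) ∣ P := (Int.natCast_dvd_natCast.2 hpd).trans (Int.gcd_dvd_left _ _)
        have h2 : p ∣ n := by
          have := (Int.natCast_dvd_natCast.2 hpd).trans (Int.gcd_dvd_right P (n : ℤ))
          exact_mod_cast this
        have h3 : N.factorization p = 0 := by
          refine Nat.factorization_eq_zero_of_not_dvd fun h => ?_
          have h3 := Nat.dvd_gcd h2 h
          rw [hc] at h3
          exact hp.one_lt.ne' (Nat.dvd_one.1 h3)
        have h4 := hPp p hp h2
        rw [h3, zero_add, pow_one] at h4
        exact h4 h1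
    obtain ⟨s, t, β, hβ, hαβ⟩ := abs_main (s := symHom hn hK) (fun a b => symCl_anti hn hK a b) n hn
      (fun a b => symCl_tors hn hK a b) (-1) H hneg (fun a => symCl_diag hn hK a) V hVH z g
      (Fintype.card_fin _) hND α hα'
    refine ⟨⟨s, t, fun i => symCl hn hK (s i) (t i), β, fun i => (isSym_iff hn hK _ _ _).2 rfl, hβ,
      fun hL => by simpa using hVbot hL hβ, hαβ⟩, fun m hm hVm => ?_⟩
    rw [hαβ, mul_comm m]
    exact ((hasRep_prod hn hK g s t).mul ((hVm β hβ).hasRep hm)).indDvd

end Pool.Agent.Results.MP_43d240_ag.IntersectionNumbers
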