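import Mathlib
import Pool.Agent.N394.PX.Sing

/-! Unramified period-index for abelian varieties with a vanishing symbol: all periods.

Let `A` be an abelian variety of dimension `g + 1` over an algebraically closed field `k`, and let `n` be prime to the
characteristic. The classes in `Br(A)` killed by `n` are sums of symbols of degree `n` in functions
`x_1, x_2, z_1, ..., z_(2g)` whose divisors are divisible by `n` (a basis of `H^1(A, μ_n)`), and every divisor class on
`A` gives a relation between these symbols. Suppose that a combination of divisor classes is decomposable modulo `n`,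
so that for a suitable basis the symbol `(x_1, x_2)` vanishes, and that some intersection number of `g` divisors on the
complementary part is prime to `p` for every `p ∣ n`. Then every class in `Br(A)` killed by `n` is a sum of `g` symbols
and its index divides `n ^ g = n ^ (dim A - 1)`, as predicted by the conjecture. Here `n` is arbitrary (not
squarefree). An example: real multiplication by an order `O` unramified at the primes `p ∣ n` such that over every
`p ∣ n` there is a prime of `O` of degree one (the component of `O ⊗ ℤ_p` of rank one gives the decomposable class); in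
the starting result RealMultiplication the period is squarefree.

The theorem is about isotropic subgroups `H` of `Kˣ`, that is `(a, b) = 0` for all `a, b ∈ H`: it contains this case
(`H` is generated by `kˣ`, `x_1`, `x_2`) and the case where `H = Lˣ` for a field `L` of transcendence degree one
(IntersectionNumbers). -/

set_option autoImplicit false
set_option linter.all false

open scoped TensorProduct

namespace Pool.Agent.Results.MP_43d240_ag.IsotropicSubgroups

open Pool.Agent.Helper18.Br Pool.Agent.H552R3.SymBr Pool.Agent.H552R3.SymPred Pool.Agent.H552R3.Tsen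
  Pool.Agent.Y109.PI Pool.Agent.N394.PX

universe u

theorem main {K : Type u} [Field K] (n : ℕ) (hn : 0 < n) (ζ : K) (hζ : IsPrimitiveRoot ζ n)
    (H : Subgroup Kˣ) (hneg : (-1 : Kˣ) ∈ H) (hH : ∀ a ∈ H, ∀ b ∈ H, IsSym n ζ a b 1)
    (g : ℕ) (z : Fin (2 * g) → Kˣ)
    (θ : Fin (2 * g) → Fin (2 * g) → BrauerGroup.{u, u} K) (hθ : ∀ u v, IsSym n ζ (z u) (z v) (θ u v))
    {κ : Type} [Fintype κ] (w : κ → Fin (2 * g) → Fin (2 * g) → ℤ)
    (hrel : ∀ j, ∏ u, ∏ v, θ u v ^ w j u v ∈
      Subgroup.closure {γ | ∃ a ∈ H, ∃ u, IsSym n ζ a (z u) γ})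
    (hint : ∀ p : ℕ, p.Prime → p ∣ n → ∃ e : Fin g → κ,
      ¬ (p : ℤ) ∣ inter g fun i => Matrix.of fun u v => w (e i) u v - w (e i) v u)
    (G : Subgroup Kˣ) (hG : G = H ⊔ Subgroup.closure (Set.range z))
    (α : BrauerGroup.{u, u} K) (hα : α ∈ Subgroup.closure {γ | ∃ a ∈ G, ∃ b ∈ G, IsSym n ζ a b γ}) :
    (∃ (s t : Fin g → Kˣ) (σ : Fin g → BrauerGroup.{u, u} K),
      (∀ i, IsSym n ζ (s i) (t i) (σ i)) ∧ α = ∏ i, σ i) ∧ IndDvd α (n ^ g) := by
  classical
  have hVH : ∀ a ∈ H, ∀ b ∈ H, symCl hn hζ a b ∈ (⊥ : Subgroup (BrauerGroup.{u, u} K)) := by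
    intro a ha b hb
    rw [Subgroup.mem_bot]
    exact ((isSym_iff hn hζ a b 1).1 (hH a ha b hb)).symm
  have hα' : α ∈ Subgroup.closure {γ | ∃ a ∈ H ⊔ Subgroup.closure (Set.range z),
      ∃ b ∈ H ⊔ Subgroup.closure (Set.range z), γ = symHom hn hζ a b} := by
    have : {γ | ∃ a ∈ G, ∃ b ∈ G, IsSym n ζ a b γ} = {γ | ∃ a ∈ H ⊔ Subgroup.closure (Set.range z),
      ∃ b ∈ H ⊔ Subgroup.closure (Set.range z), γ = symHom hn hζ a b} := by
      ext γ
      simp only [Set.mem_setOf_eq, isSym_iff hn hζ, hG, symHom_apply]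
    rw [← this]; exact hα
  have hrel' : ∀ i, Q (symHom hn hζ) z (w i) ∈ low (symHom hn hζ) H ⊥ z := by
    intro i
    have h1 : Q (symHom hn hζ) z (w i) = ∏ u, ∏ v, θ u v ^ w i u v := by
      rw [Q, Fintype.prod_prod_type]
      refine Finset.prod_congr rfl fun u _ => Finset.prod_congr rfl fun v _ => ?_
      rw [(isSym_iff hn hζ (z u) (z v) (θ u v)).1 (hθ u v), symHom_apply]
    rw [h1]
    refine (Subgroup.closure_le (low (symHom hn hζ) H ⊥ z)).2 ?_ (hrel i)
    rintro γ ⟨a, ha, u, hab⟩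
    rw [isSym_iff hn hζ] at hab
    subst hab
    exact low_sym (symHom hn hζ) (V := ⊥) (z := z) (H := H) ha u
  have hND : ∀ b : Matrix (Fin (2 * g)) (Fin (2 * g)) ℤ, Alt b →
      ∃ w0 : Fin (2 * g) → Fin (2 * g) → ℤ, Q (symHom hn hζ) z w0 ∈ low (symHom hn hζ) H ⊥ z ∧
      IsCoprime (b + Matrix.of fun u v => w0 u v - w0 v u).det (n : ℤ) := by
    intro b hb
    obtain ⟨c, P, hP, hPp⟩ := exists_good' g n hn (fun _ => 0) b (fun i => dif (w i)) hb
      (fun i => alt_dif (w i)) (fun p hp hpn => by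
        obtain ⟨e, he⟩ := hint p hp hpn
        exact ⟨e, by rw [zero_add, pow_one]; exact he⟩)
    refine ⟨∑ i, c i • w i, ?_, ?_⟩
    · rw [Q_comb']
      exact Subgroup.prod_mem _ fun i _ => Subgroup.zpow_mem _ (hrel' i) _
    · rw [dif_comb', hP]
      apply IsCoprime.pow_left
      rw [Int.isCoprime_iff_gcd_eq_one]
      by_contra hne
      obtain ⟨p, hp, hpd⟩ := Nat.exists_prime_and_dvd hne
      have h1 : (p : ℤ) ∣ P := (Int.natCast_dvd_natCast.2 hpd).trans (Int.gcd_dvd_left _ _)
      have h2 : p ∣ n := by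
        have := (Int.natCast_dvd_natCast.2 hpd).trans (Int.gcd_dvd_right P (n : ℤ))
        exact_mod_cast this
      have h4 := hPp p hp h2
      rw [zero_add, pow_one] at h4
      exact h4 h1
  obtain ⟨s, t, β, hβ, hαβ⟩ := abs_main (s := symHom hn hζ) (fun a b => symCl_anti hn hζ a b) n hn
    (fun a b => symCl_tors hn hζ a b) (-1) H hneg (fun a => symCl_diag hn hζ a) ⊥ hVH z g
    (Fintype.card_fin _) hND α hα'
  rw [Subgroup.mem_bot] at hβ
  subst hβ
  rw [mul_one] at hαβ
  refine ⟨⟨s, t, fun i => symCl hn hζ (s i) (t i), fun i => (isSym_iff hn hζ _ _ _).2 rfl, hαβ⟩, ?_⟩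
  rw [hαβ]
  exact (hasRep_prod hn hζ g s t).indDvd

/-- Let `K` be a field, `n ≥ 1` and `ζ ∈ K` a primitive `n`-th root of unity; let `(a, b)` denote symbols of
degree `n`. Let `z_1, ..., z_(2g)` be nonzero elements of `K`, let `H` be a subgroup of `Kˣ`, and let `w_j` (`j` in a
finite set) be integral matrices of size `2 g` such that every combination `∑ w_j(u, v) (z_u, z_v)` is a combination
of symbols `(a, z_u)` with `a ∈ H`. Suppose that for every prime divisor `p` of `n` one of the intersection numbers of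
`g` of the `w_j` (the coefficient of `X_1 ⋯ X_g` in the Pfaffian of `∑ X_i (w_(e i) - w_(e i)ᵀ)`) is not divisible by
`p`. Let `α` be generated by symbols with entries in the group generated by `H` and the `z_u`.

(1) If `-1 ∈ H` and `(a, b) = 0` for all `a, b ∈ H`, then `α` is the sum of `g` symbols of degree `n`, and its index
divides `n ^ g`.

(2) If `K` contains an algebraically closed field `k`, and `H` is generated by `kˣ` and two elements `x_1`, `x_2` with
`(x_1, x_2) = 0`, then `α` is the sum of `g` symbols of degree `n`, and its index divides `n ^ g`. -/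
theorem result {K : Type u} [Field K] (n : ℕ) (hn : 0 < n) (ζ : K) (hζ : IsPrimitiveRoot ζ n)
    (H : Subgroup Kˣ) (g : ℕ) (z : Fin (2 * g) → Kˣ)
    (θ : Fin (2 * g) → Fin (2 * g) → BrauerGroup.{u, u} K) (hθ : ∀ u v, IsSym n ζ (z u) (z v) (θ u v))
    {κ : Type} [Fintype κ] (w : κ → Fin (2 * g) → Fin (2 * g) → ℤ)
    (hrel : ∀ j, ∏ u, ∏ v, θ u v ^ w j u v ∈
      Subgroup.closure {γ | ∃ a ∈ H, ∃ u, IsSym n ζ a (z u) γ})
    (hint : ∀ p : ℕ, p.Prime → p ∣ n → ∃ e : Fin g → κ,
      ¬ (p : ℤ) ∣ inter g fun i => Matrix.of fun u v => w (e i) u v - w (e i) v u)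
    (G : Subgroup Kˣ) (hG : G = H ⊔ Subgroup.closure (Set.range z))
    (α : BrauerGroup.{u, u} K) (hα : α ∈ Subgroup.closure {γ | ∃ a ∈ G, ∃ b ∈ G, IsSym n ζ a b γ}) :
    ((-1 : Kˣ) ∈ H → (∀ a ∈ H, ∀ b ∈ H, IsSym n ζ a b 1) →
      (∃ (s t : Fin g → Kˣ) (σ : Fin g → BrauerGroup.{u, u} K),
        (∀ i, IsSym n ζ (s i) (t i) (σ i)) ∧ α = ∏ i, σ i) ∧ IndDvd α (n ^ g)) ∧
    (∀ (k : Type u) [Field k] [IsAlgClosed k] [Algebra k K] (x₁ x₂ : Kˣ),
      H = Subgroup.closure (Set.range (Units.map (algebraMap k K).toMonoidHom) ∪ {x₁, x₂}) → IsSym n ζ x₁ x₂ 1 →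
      (∃ (s t : Fin g → Kˣ) (σ : Fin g → BrauerGroup.{u, u} K),
        (∀ i, IsSym n ζ (s i) (t i) (σ i)) ∧ α = ∏ i, σ i) ∧ IndDvd α (n ^ g)) := by
  refine ⟨fun hneg hH => main n hn ζ hζ H hneg hH g z θ hθ w hrel hint G hG α hα, ?_⟩
  intro k _ _ _ x₁ x₂ hHk hx
  have hconst : ∀ c : kˣ, ∀ b : Kˣ, symHom hn hζ (Units.map (algebraMap k K).toMonoidHom c) b = 1 := by
    intro c b
    obtain ⟨d, hd⟩ := IsAlgClosed.exists_pow_nat_eq (c : k) hn
    have hd0 : d ≠ 0 := by
      rintro rfl
      rw [zero_pow hn.ne'] at hd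
      exact c.ne_zero hd.symm
    have hc : c = (Units.mk0 d hd0) ^ n := by
      ext
      rw [Units.val_pow_eq_pow_val, Units.val_mk0, hd]
    rw [hc, map_pow, map_pow, MonoidHom.pow_apply, symHom_apply, symCl_tors]
  have hconst' : ∀ c : kˣ, ∀ b : Kˣ, symHom hn hζ b (Units.map (algebraMap k K).toMonoidHom c) = 1 := by
    intro c b
    have h1 := symCl_anti hn hζ b (Units.map (algebraMap k K).toMonoidHom c)
    have h2 := hconst c b
    rw [symHom_apply] at h2 ⊢
    rw [h1, h2, inv_one]
  have hneg1 : (-1 : Kˣ) = Units.map (algebraMap k K).toMonoidHom (-1) := by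
    ext
    simp
  have hdiag : ∀ a : Kˣ, symHom hn hζ a a = 1 := by
    intro a
    rcases symCl_diag hn hζ a with h | h
    · exact h
    · rw [symHom_apply, h, hneg1]
      exact hconst' _ _
  have hx12 : symHom hn hζ x₁ x₂ = 1 := by
    rw [symHom_apply]
    exact ((isSym_iff hn hζ x₁ x₂ 1).1 hx).symm
  have hx21 : symHom hn hζ x₂ x₁ = 1 := by
    have h1 := symCl_anti hn hζ x₂ x₁
    rw [symHom_apply] at hx12 ⊢
    rw [h1, hx12, inv_one]
  refine main n hn ζ hζ H ?_ ?_ g z θ hθ w hrel hint G hG α hα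
  · rw [hHk, hneg1]
    exact Subgroup.subset_closure (Or.inl ⟨-1, rfl⟩)
  · intro a ha b hb
    rw [isSym_iff hn hζ]
    have h := mem_of_gens (symHom hn hζ) (⊥ : Subgroup (BrauerGroup.{u, u} K))
      (Set.range (Units.map (algebraMap k K).toMonoidHom) ∪ {x₁, x₂}) (by
        intro a ha b hb
        rw [Subgroup.mem_bot]
        rcases ha with ⟨c, rfl⟩ | ha
        · exact hconst c b
        rcases hb with ⟨c, rfl⟩ | hb
        · exact hconst' c a
        rcases ha with rfl | ha <;> rcases hb with rfl | hb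
        · exact hdiag _
        · rw [Set.mem_singleton_iff] at hb
          rw [hb]; exact hx12
        · rw [Set.mem_singleton_iff] at ha
          rw [ha]; exact hx21
        · rw [Set.mem_singleton_iff] at ha hb
          rw [ha, hb]; exact hdiag _) a (hHk ▸ ha) b (hHk ▸ hb)
    rw [Subgroup.mem_bot, symHom_apply] at h
    exact h.symm

end Pool.Agent.Results.MP_43d240_ag.IsotropicSubgroups
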