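import Mathlib
import Pool.Agent.N394.PX.Sing

/-! Unramified period-index for products of an abelian variety with real multiplication and an arbitrary abelian
variety.

Let `A = A₁ × A₂` be a product of abelian varieties of dimensions `s ≥ 1` and `h` over an algebraically closed field
`k`, and let `n` be squarefree and prime to the characteristic. The classes in `Br(A)` killed by `n` are sums of
symbols `(z_u, z_v)` of degree `n` in functions `z_u` on `A₁` and on `A₂`, and every divisor on `A₁` or `A₂` gives a
relation between these symbols. We assume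

* that `A₁` is ordinary for `n`: there are `s` divisors on `A₁` such that for all `p ∣ n` the number of degenerate
  members `c ∈ F_p^s` of the linear system of their alternating forms modulo `p` is not divisible by `p`; this is so
  for elliptic curves, and for real multiplication by an order of rank `s` and discriminant prime to `n` (part (C) of
  the starting result RealMultiplication);
* that for all `p ∣ n` there are divisors `D_1, ..., D_h` on `A₂` (not necessarily different) whose intersection number
  `D_1 ⋯ D_h` is prime to `p`; for instance a principal polarisation if all prime divisors of `n` are larger than `h`.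

Then all classes in `Br(A)` killed by `n` are sums of `s + h - 1` symbols, and their index divides
`n ^ (s + h - 1) = n ^ (dim A - 1)`, as predicted by the conjecture. There is no condition on `Br(A)`: the classes
may have components in `Br(A₁)`, `Br(A₂)` and in `H^1(A₁) ⊗ H^1(A₂)`. For example the conjecture holds for
classes of odd squarefree period on the fourfolds `A₁ × A₂`, where `A₂` is any principally polarised abelian surface
and `A₁` an abelian surface with real multiplication of discriminant prime to the period.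

Proof. Let `b` be the alternating form of a class modulo `p`. First we choose a combination of the forms of `A₂` such
that the block of `A₂` becomes invertible (intersection numbers, see IntersectionNumbers). The degenerate forms are
then those for which the Schur complement, an alternating form of size `2 s`, is degenerate, and by the theorem of
Chevalley and Warning there is a combination of the forms of `A₁` for which it is (RealMultiplication). -/

set_option autoImplicit false
set_option linter.all false

open scoped TensorProduct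

namespace Pool.Agent.Results.MP_43d240_ag.ProductsWithRealMultiplication

open Pool.Agent.Helper18.Br Pool.Agent.H552R3.SymBr Pool.Agent.H552R3.SymPred Pool.Agent.H552R3.Tsen
  Pool.Agent.Y109.PI Pool.Agent.N394.PX

universe u

/-- Let `K` be an extension of an algebraically closed field `k`, let `n` be squarefree, `ζ ∈ K` a primitive `n`-th
root of unity and let `x_1, ..., x_(2s)` and `y_1, ..., y_(2h)` be nonzero elements of `K` (`s ≥ 1`); let `(a, b)`
denote symbols of degree `n`. Let `w_1, ..., w_s` be integral matrices of size `2 s` with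
`∑ w_i(u, v) (x_u, x_v) = 0` in `Br(K)` such that for every prime divisor `p` of `n` the number of `c ∈ F_p^s` for
which `∑ c_i (w_i - w_iᵀ)` is degenerate over `F_p` is not divisible by `p`. Let `w'_j` (`j` in a finite set) be
integral matrices of size `2 h` with `∑ w'_j(u, v) (y_u, y_v) = 0` such that for every prime divisor `p` of `n` one of
the intersection numbers of `h` of them (the coefficient of `X_1 ⋯ X_h` in the Pfaffian of
`∑ X_i (w'_(e i) - w'_(e i)ᵀ)`) is not divisible by `p`. Then every class generated by symbols with entries in the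
group generated by `kˣ`, the `x_u` and the `y_u` is the sum of `s + h - 1` symbols of degree `n`, and its index
divides `n ^ (s + h - 1)`. -/
theorem result {k K : Type u} [Field k] [IsAlgClosed k] [Field K] [Algebra k K] (n : ℕ) (hn : Squarefree n)
    (ζ : K) (hζ : IsPrimitiveRoot ζ n) (s h : ℕ) (hs : 0 < s)
    (x : Fin (2 * s) → Kˣ) (y : Fin (2 * h) → Kˣ)
    (θ : Fin (2 * s) → Fin (2 * s) → BrauerGroup.{u, u} K) (hθ : ∀ u v, IsSym n ζ (x u) (x v) (θ u v))
    (θ' : Fin (2 * h) → Fin (2 * h) → BrauerGroup.{u, u} K) (hθ' : ∀ u v, IsSym n ζ (y u) (y v) (θ' u v))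
    (w : Fin s → Fin (2 * s) → Fin (2 * s) → ℤ) (hw : ∀ i, ∏ u, ∏ v, θ u v ^ w i u v = 1)
    (hord : ∀ p : ℕ, p.Prime → p ∣ n → ¬ p ∣ Nat.card {c : Fin s → ZMod p //
      (∑ i, c i • (Matrix.of fun u v => ((w i u v - w i v u : ℤ) : ZMod p))).det = 0})
    {κ : Type} [Fintype κ] (w' : κ → Fin (2 * h) → Fin (2 * h) → ℤ) (hw' : ∀ j, ∏ u, ∏ v, θ' u v ^ w' j u v = 1)
    (hint : ∀ p : ℕ, p.Prime → p ∣ n → ∃ e : Fin h → κ,
      ¬ (p : ℤ) ∣ inter h fun i => Matrix.of fun u v => w' (e i) u v - w' (e i) v u)
    (G : Subgroup Kˣ)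
    (hG : G = Subgroup.closure (Set.range (Units.map (algebraMap k K).toMonoidHom) ∪ Set.range x ∪ Set.range y))
    (α : BrauerGroup.{u, u} K) (hα : α ∈ Subgroup.closure {γ | ∃ a ∈ G, ∃ b ∈ G, IsSym n ζ a b γ}) :
    (∃ (a b : Fin (s + h - 1) → Kˣ) (σ : Fin (s + h - 1) → BrauerGroup.{u, u} K),
      (∀ i, IsSym n ζ (a i) (b i) (σ i)) ∧ α = ∏ i, σ i) ∧ IndDvd α (n ^ (s + h - 1)) := by
  classical
  have hn0 : 0 < n := Nat.pos_of_ne_zero hn.ne_zero
  let z : Fin (2 * s) ⊕ Fin (2 * h) → Kˣ := Sum.elim x y
  let H : Subgroup Kˣ := (Units.map (algebraMap k K).toMonoidHom).range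
  have hneg : (-1 : Kˣ) ∈ H := by
    refine ⟨-1, ?_⟩
    ext
    simp
  -- constants are `n`-th powers
  have hconst : ∀ a ∈ H, ∀ b, symHom hn0 hζ a b = 1 := by
    rintro _ ⟨c, rfl⟩ b
    obtain ⟨d, hd⟩ := IsAlgClosed.exists_pow_nat_eq (c : k) hn0
    have hd0 : d ≠ 0 := by
      rintro rfl
      rw [zero_pow hn0.ne'] at hd
      exact c.ne_zero hd.symm
    have hc : c = (Units.mk0 d hd0) ^ n := by
      ext
      rw [Units.val_pow_eq_pow_val, Units.val_mk0, hd]
    rw [hc, map_pow, map_pow, MonoidHom.pow_apply, symHom_apply, symCl_tors]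
  have hVH : ∀ a ∈ H, ∀ b ∈ H, symHom hn0 hζ a b ∈ (⊥ : Subgroup (BrauerGroup.{u, u} K)) := fun a ha b _ => by
    rw [hconst a ha b]; exact Subgroup.one_mem _
  have hlow : low (symHom hn0 hζ) H ⊥ z ≤ (⊥ : Subgroup (BrauerGroup.{u, u} K)) := by
    refine sup_le le_rfl ?_
    rw [Subgroup.closure_le]
    rintro γ ⟨a, ha, u, rfl⟩
    rw [hconst a ha]
    exact Subgroup.one_mem _
  have hz : Set.range z = Set.range x ∪ Set.range y := Set.Sum.elim_range x y
  have hGH : G = H ⊔ Subgroup.closure (Set.range z) := by
    rw [hG, Set.union_assoc, ← hz, Subgroup.closure_union]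
    congr 1
    exact Subgroup.closure_eq H
  have hα' : α ∈ Subgroup.closure {γ | ∃ a ∈ H ⊔ Subgroup.closure (Set.range z),
      ∃ b ∈ H ⊔ Subgroup.closure (Set.range z), γ = symHom hn0 hζ a b} := by
    have : {γ | ∃ a ∈ G, ∃ b ∈ G, IsSym n ζ a b γ} = {γ | ∃ a ∈ H ⊔ Subgroup.closure (Set.range z),
      ∃ b ∈ H ⊔ Subgroup.closure (Set.range z), γ = symHom hn0 hζ a b} := by
      ext γ
      simp only [Set.mem_setOf_eq, isSym_iff hn0 hζ, hGH, symHom_apply]
    rw [← this]; exact hα
  have hQ : ∀ i, Q (symHom hn0 hζ) z (prodRel w w' i) = 1 := by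
    intro i
    rw [Q, Fintype.prod_prod_type, Fintype.prod_sum_type]
    rcases i with i | j
    · rw [← hw i]
      have h1 : ∀ u : Fin (2 * s), ∏ v, (symHom hn0 hζ (z (Sum.inl u)) (z v)) ^
          prodRel w w' (Sum.inl i) (Sum.inl u) v = ∏ v, θ u v ^ w i u v := by
        intro u
        rw [Fintype.prod_sum_type]
        have h2 : ∀ v : Fin (2 * s), (symHom hn0 hζ (z (Sum.inl u)) (z (Sum.inl v))) ^
            prodRel w w' (Sum.inl i) (Sum.inl u) (Sum.inl v) = θ u v ^ w i u v := by
          intro v
          rw [(isSym_iff hn0 hζ (x u) (x v) (θ u v)).1 (hθ u v)]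
          rfl
        have h3 : ∀ v : Fin (2 * h), (symHom hn0 hζ (z (Sum.inl u)) (z (Sum.inr v))) ^
            prodRel w w' (Sum.inl i) (Sum.inl u) (Sum.inr v) = 1 := fun v => zpow_zero _
        rw [Finset.prod_congr rfl fun v _ => h2 v, Finset.prod_congr rfl fun v _ => h3 v, Finset.prod_const_one,
          mul_one]
      have h4 : ∀ u : Fin (2 * h), ∏ v, (symHom hn0 hζ (z (Sum.inr u)) (z v)) ^
          prodRel w w' (Sum.inl i) (Sum.inr u) v = 1 := fun u => Finset.prod_eq_one fun v _ => zpow_zero _
      rw [Finset.prod_congr rfl fun u _ => h1 u, Finset.prod_congr rfl fun u _ => h4 u, Finset.prod_const_one, mul_one]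
    · rw [← hw' j]
      have h1 : ∀ u : Fin (2 * h), ∏ v, (symHom hn0 hζ (z (Sum.inr u)) (z v)) ^
          prodRel w w' (Sum.inr j) (Sum.inr u) v = ∏ v, θ' u v ^ w' j u v := by
        intro u
        rw [Fintype.prod_sum_type]
        have h2 : ∀ v : Fin (2 * h), (symHom hn0 hζ (z (Sum.inr u)) (z (Sum.inr v))) ^
            prodRel w w' (Sum.inr j) (Sum.inr u) (Sum.inr v) = θ' u v ^ w' j u v := by
          intro v
          rw [(isSym_iff hn0 hζ (y u) (y v) (θ' u v)).1 (hθ' u v)]
          rfl
        have h3 : ∀ v : Fin (2 * s), (symHom hn0 hζ (z (Sum.inr u)) (z (Sum.inl v))) ^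
            prodRel w w' (Sum.inr j) (Sum.inr u) (Sum.inl v) = 1 := fun v => zpow_zero _
        rw [Finset.prod_congr rfl fun v _ => h2 v, Finset.prod_congr rfl fun v _ => h3 v, Finset.prod_const_one,
          one_mul]
      have h4 : ∀ u : Fin (2 * s), ∏ v, (symHom hn0 hζ (z (Sum.inl u)) (z v)) ^
          prodRel w w' (Sum.inr j) (Sum.inl u) v = 1 := fun u => Finset.prod_eq_one fun v _ => zpow_zero _
      rw [Finset.prod_congr rfl fun u _ => h1 u, Finset.prod_congr rfl fun u _ => h4 u, Finset.prod_const_one, one_mul]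
  have hord' : ∀ p : ℕ, p.Prime → p ∣ n → OrdAt p s w := by
    intro p hp hpn
    have h1 := hord p hp hpn
    have e : ∀ i, red p (dif (w i)) = Matrix.of fun u v => ((w i u v - w i v u : ℤ) : ZMod p) := fun i => rfl
    rw [OrdAt]
    simp only [e]
    exact h1
  obtain ⟨a, b, hab⟩ := abs_sing' (s := symHom hn0 hζ) (fun a b => symCl_anti hn0 hζ a b) n hn
    (fun a b => symCl_tors hn0 hζ a b) (-1) H hneg (fun a => symCl_diag hn0 hζ a) ⊥ hVH (s + h) (by omega)
    (by rw [Fintype.card_sum, Fintype.card_fin, Fintype.card_fin]; ring) z (prodRel w w')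
    (fun i => by rw [hQ i]; exact Subgroup.one_mem _)
    (fun p hp hpn b hb => prod_deg s h hs (Fintype.card_fin _) w w' p hp (hord' p hp hpn) (hint p hp hpn) b hb) α hα'
  have h1 := hlow hab
  rw [Subgroup.mem_bot, mul_inv_eq_one] at h1
  refine ⟨⟨a, b, fun i => symCl hn0 hζ (a i) (b i), fun i => (isSym_iff hn0 hζ _ _ _).2 rfl, h1⟩, ?_⟩
  rw [h1]
  exact (hasRep_prod hn0 hζ (s + h - 1) a b).indDvd

end Pool.Agent.Results.MP_43d240_ag.ProductsWithRealMultiplication
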